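import Pool.Agent.helper11.TX.Spec

/-!
# TX, row CR: sums of products of local functions over intervals
-/

set_option autoImplicit false

namespace Pool.Agent.helper11.TX

open Finset

/-- The sum of a periodic function over a full period starting anywhere. -/
theorem CR_shift (n : ℕ) (hn : 0 < n) (F : ℤ → ℝ) (hF : ∀ c k : ℤ, F (c + n * k) = F c) (u : ℤ) :
    ∑ c ∈ Ioc u (u + n), F c = ∑ r ∈ range n, F r := by
  have hn' : (0 : ℤ) < n := by exact_mod_cast hn
  have hmod : ∀ c : ℤ, F (c % n) = F c := by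
    intro c
    have h1 := hF (c % n) (c / n)
    have h2 : c % n + n * (c / n) = c := Int.emod_add_mul_ediv c n
    rw [h2] at h1
    exact h1.symm
  refine Finset.sum_bij (fun c _ => (c % (n : ℤ)).toNat) ?_ ?_ ?_ ?_
  · intro c _
    have h1 := Int.emod_nonneg c hn'.ne'
    have h2 := Int.emod_lt_of_pos c hn'
    rw [mem_range]
    omega
  · intro c hc d hd h
    rw [mem_Ioc] at hc hd
    have h1 := Int.emod_nonneg c hn'.ne'
    have h2 := Int.emod_nonneg d hn'.ne'
    have h3 : c % (n : ℤ) = d % (n : ℤ) := by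
      have h4 : (((c % (n : ℤ)).toNat : ℕ) : ℤ) = (((d % (n : ℤ)).toNat : ℕ) : ℤ) := by
        exact_mod_cast h
      rwa [Int.toNat_of_nonneg h1, Int.toNat_of_nonneg h2] at h4
    have h5 : (n : ℤ) ∣ c - d := Int.ModEq.dvd (show d ≡ c [ZMOD n] from h3.symm)
    obtain ⟨k, hk⟩ := h5
    have h6 : k = 0 := by
      rcases lt_trichotomy k 0 with h7 | h7 | h7
      · have : (n : ℤ) * k ≤ (n : ℤ) * (-1) := mul_le_mul_of_nonneg_left (by omega) hn'.le
        omega
      · exact h7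
      · have : (n : ℤ) * 1 ≤ (n : ℤ) * k := mul_le_mul_of_nonneg_left (by omega) hn'.le
        omega
    rw [h6, mul_zero] at hk
    omega
  · intro r hr
    rw [mem_range] at hr
    have h1 := Int.emod_nonneg ((r : ℤ) - u - 1) hn'.ne'
    have h2 := Int.emod_lt_of_pos ((r : ℤ) - u - 1) hn'
    have h3 : ((r : ℤ) - u - 1) % n = (r : ℤ) - u - 1 - n * (((r : ℤ) - u - 1) / n) :=
      Int.emod_def _ _
    refine ⟨u + 1 + ((r : ℤ) - u - 1) % n, ?_, ?_⟩
    · rw [mem_Ioc]
      constructor <;> omega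
    · have h4 : (u + 1 + ((r : ℤ) - u - 1) % n) % n = (r : ℤ) := by
        rw [h3]
        have h5 : u + 1 + ((r : ℤ) - u - 1 - n * (((r : ℤ) - u - 1) / n)) =
            (r : ℤ) + n * (-(((r : ℤ) - u - 1) / n)) := by ring
        rw [h5, Int.add_mul_emod_self_left]
        exact Int.emod_eq_of_lt (by positivity) (by exact_mod_cast hr)
      simp only [h4, Int.toNat_natCast]
  · intro c _
    have h1 := Int.emod_nonneg c hn'.ne'
    rw [show (((c % (n : ℤ)).toNat : ℕ) : ℤ) = c % n from Int.toNat_of_nonneg h1]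
    exact (hmod c).symm

/-- Two coprime periods. -/
theorem CR_two (m n : ℕ) (hm : 0 < m) (hn : 0 < n) (hc : Nat.Coprime m n) (A B : ℤ → ℝ)
    (hA : ∀ c k : ℤ, A (c + m * k) = A c) (hB : ∀ c k : ℤ, B (c + n * k) = B c) :
    ∑ r ∈ range (m * n), A r * B r = (∑ r ∈ range m, A r) * ∑ r ∈ range n, B r := by
  have hA' : ∀ r : ℕ, A ((r % m : ℕ) : ℤ) = A r := by
    intro r
    have h1 := hA ((r % m : ℕ) : ℤ) ((r / m : ℕ) : ℤ)
    have h2 : ((r % m : ℕ) : ℤ) + m * ((r / m : ℕ) : ℤ) = r := by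
      exact_mod_cast Nat.mod_add_div r m
    rw [h2] at h1
    exact h1.symm
  have hB' : ∀ r : ℕ, B ((r % n : ℕ) : ℤ) = B r := by
    intro r
    have h1 := hB ((r % n : ℕ) : ℤ) ((r / n : ℕ) : ℤ)
    have h2 : ((r % n : ℕ) : ℤ) + n * ((r / n : ℕ) : ℤ) = r := by
      exact_mod_cast Nat.mod_add_div r n
    rw [h2] at h1
    exact h1.symm
  rw [Finset.sum_mul_sum, ← Finset.sum_product']
  refine Finset.sum_bij (fun r _ => (r % m, r % n)) ?_ ?_ ?_ ?_
  · intro r _
    rw [mem_product, mem_range, mem_range]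
    exact ⟨Nat.mod_lt _ hm, Nat.mod_lt _ hn⟩
  · intro r hr s hs h
    rw [mem_range] at hr hs
    rw [Prod.mk.injEq] at h
    have h1 : r ≡ s [MOD m * n] := (Nat.modEq_and_modEq_iff_modEq_mul hc).1 ⟨h.1, h.2⟩
    have h2 : r % (m * n) = s % (m * n) := h1
    rwa [Nat.mod_eq_of_lt hr, Nat.mod_eq_of_lt hs] at h2
  · rintro ⟨a, b⟩ hab
    rw [mem_product, mem_range, mem_range] at hab
    obtain ⟨k, hk1, hk2⟩ := Nat.chineseRemainder hc a b
    refine ⟨k % (m * n), ?_, ?_⟩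
    · rw [mem_range]
      exact Nat.mod_lt _ (Nat.mul_pos hm hn)
    · have h1 : k % (m * n) % m = a := by
        rw [Nat.mod_mul_right_mod]
        have h3 : k % m = a % m := hk1
        rw [h3, Nat.mod_eq_of_lt hab.1]
      have h2 : k % (m * n) % n = b := by
        rw [Nat.mod_mul_left_mod]
        have h3 : k % n = b % n := hk2
        rw [h3, Nat.mod_eq_of_lt hab.2]
      simp only [h1, h2]
  · intro r _
    show A r * B r = A ((r % m : ℕ) : ℤ) * B ((r % n : ℕ) : ℤ)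
    rw [hA', hB']

/-- Periodicity of the product. -/
theorem CR_per (P : Finset ℕ) (f : ℕ → ℤ → ℝ)
    (hper : ∀ l ∈ P, ∀ c k : ℤ, f l (c + l * k) = f l c) (c k : ℤ) :
    ∏ l ∈ P, f l (c + ((∏ l ∈ P, l : ℕ) : ℤ) * k) = ∏ l ∈ P, f l c := by
  refine Finset.prod_congr rfl fun l hl => ?_
  obtain ⟨e, he⟩ := Finset.dvd_prod_of_mem (fun l : ℕ => l) hl
  rw [he]
  have h1 : ((l * e : ℕ) : ℤ) * k = (l : ℤ) * ((e : ℤ) * k) := by
    push_cast
    ring
  rw [h1]
  exact hper l hl c _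

/-- The sum over a full period. -/
theorem CR_full (P : Finset ℕ) (f : ℕ → ℤ → ℝ) (hP : ∀ l ∈ P, l.Prime)
    (hper : ∀ l ∈ P, ∀ c k : ℤ, f l (c + l * k) = f l c) :
    ∑ r ∈ range (∏ l ∈ P, l), ∏ l ∈ P, f l ((r : ℕ) : ℤ) = ∏ l ∈ P, ∑ r ∈ range l, f l ((r : ℕ) : ℤ) := by
  classical
  induction P using Finset.induction_on with
  | empty => simp
  | insert q P hq ih =>
    have hP' : ∀ l ∈ P, l.Prime := fun l hl => hP l (mem_insert_of_mem hl)
    have hper' : ∀ l ∈ P, ∀ c k : ℤ, f l (c + l * k) = f l c :=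
      fun l hl => hper l (mem_insert_of_mem hl)
    have hqp : q.Prime := hP q (mem_insert_self q P)
    have hcop : Nat.Coprime q (∏ l ∈ P, l) := by
      refine Nat.Coprime.prod_right fun l hl => ?_
      exact (Nat.coprime_primes hqp (hP' l hl)).2 (fun h => hq (h ▸ hl))
    have hpos : 0 < ∏ l ∈ P, l := Finset.prod_pos fun l hl => (hP' l hl).pos
    rw [Finset.prod_insert hq, Finset.prod_insert hq, ← ih hP' hper']
    have h1 := CR_two q (∏ l ∈ P, l) hqp.pos hpos hcop (f q) (fun c => ∏ l ∈ P, f l c)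
      (hper q (mem_insert_self q P)) (CR_per P f hper')
    rw [← h1]
    refine Finset.sum_congr rfl fun r _ => ?_
    rw [Finset.prod_insert hq]

/-- Blocks. -/
theorem CR_blocks (n : ℕ) (hn : 0 < n) (F : ℤ → ℝ) (hF : ∀ c k : ℤ, F (c + n * k) = F c) (u : ℤ)
    (q : ℕ) : ∑ c ∈ Ioc u (u + (q * n : ℕ)), F c = q * ∑ r ∈ range n, F r := by
  induction q with
  | zero => simp
  | succ q ih =>
    have h1 : u ≤ u + (q * n : ℕ) := by
      have : (0 : ℤ) ≤ ((q * n : ℕ) : ℤ) := by positivity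
      omega
    have h2 : u + ((q + 1) * n : ℕ) = u + (q * n : ℕ) + n := by
      push_cast
      ring
    have h3 : u + (q * n : ℕ) ≤ u + (q * n : ℕ) + n := by
      have : (0 : ℤ) ≤ (n : ℤ) := by positivity
      omega
    rw [h2, ← Finset.Ioc_union_Ioc_eq_Ioc h1 h3, Finset.sum_union, ih, CR_shift n hn F hF]
    · push_cast
      ring
    · rw [Finset.disjoint_left]
      intro c hc hd
      rw [mem_Ioc] at hc hd
      omega

/-- row CR -/
theorem CR : CR_stmt := by
  intro P f hP h0 hper u L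
  set D : ℕ := ∏ l ∈ P, l with hD
  have hDpos : 0 < D := Finset.prod_pos fun l hl => (hP l hl).pos
  have hDr : (∏ l ∈ P, (l : ℝ)) = (D : ℝ) := by
    rw [hD]
    push_cast
    rfl
  have hDR : (0 : ℝ) < (D : ℝ) := by exact_mod_cast hDpos
  have hperF := CR_per P f hper
  have hfull := CR_full P f hP hper
  have hF0 : ∀ c : ℤ, 0 ≤ ∏ l ∈ P, f l c := fun c => Finset.prod_nonneg fun l hl => h0 l hl c
  have hS0 : 0 ≤ ∏ l ∈ P, ∑ r ∈ range l, f l ((r : ℕ) : ℤ) :=
    Finset.prod_nonneg fun l hl => Finset.sum_nonneg fun r _ => h0 l hl _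
  rw [hDr]
  have hlow := CR_blocks D hDpos (fun c => ∏ l ∈ P, f l c) hperF u (L / D)
  have hupp := CR_blocks D hDpos (fun c => ∏ l ∈ P, f l c) hperF u (L / D + 1)
  rw [hfull] at hlow hupp
  have hdm : D * (L / D) + L % D = L := Nat.div_add_mod L D
  have hmlt : L % D < D := Nat.mod_lt L hDpos
  have e1 : L / D * D ≤ L := Nat.div_mul_le_self L D
  have e2 : L ≤ (L / D + 1) * D := by
    have : (L / D + 1) * D = D * (L / D) + D := by ring
    omega
  constructor
  · have h1 : ∑ c ∈ Ioc u (u + (L : ℤ)), ∏ l ∈ P, f l c ≤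
        ∑ c ∈ Ioc u (u + (((L / D + 1) * D : ℕ) : ℤ)), ∏ l ∈ P, f l c := by
      refine Finset.sum_le_sum_of_subset_of_nonneg ?_ fun c _ _ => hF0 c
      refine Finset.Ioc_subset_Ioc_right ?_
      have : (L : ℤ) ≤ (((L / D + 1) * D : ℕ) : ℤ) := by exact_mod_cast e2
      omega
    refine h1.trans ?_
    rw [hupp]
    refine mul_le_mul_of_nonneg_right ?_ hS0
    have h2 : ((L / D : ℕ) : ℝ) ≤ (L : ℝ) / D := Nat.cast_div_le
    push_cast
    linarith
  · have h1 : ∑ c ∈ Ioc u (u + ((L / D * D : ℕ) : ℤ)), ∏ l ∈ P, f l c ≤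
        ∑ c ∈ Ioc u (u + (L : ℤ)), ∏ l ∈ P, f l c := by
      refine Finset.sum_le_sum_of_subset_of_nonneg ?_ fun c _ _ => hF0 c
      refine Finset.Ioc_subset_Ioc_right ?_
      have : ((L / D * D : ℕ) : ℤ) ≤ (L : ℤ) := by exact_mod_cast e1
      omega
    refine le_trans ?_ h1
    rw [hlow]
    refine mul_le_mul_of_nonneg_right ?_ hS0
    have h2 : (L : ℝ) ≤ ((L / D : ℕ) + 1) * D := by exact_mod_cast e2
    have h3 : (L : ℝ) / D ≤ (L / D : ℕ) + 1 := by
      rw [div_le_iff₀ hDR]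
      exact h2
    linarith

end Pool.Agent.helper11.TX
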